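import Mathlib
import Pool.Agent.Work.MP_a5099b_nt.H.HDefs
import Pool.Agent.Work.MP_a5099b_nt.H.Gen

/-!
# Module H1.Gen1 (S-M): the ring of multipliers is `ℤ[√(-q)]` for `q ≡ 1 mod 4`

`two_mul_eq` (H/Gen, proved): `2 μ = x + y s`, `x² + q y² = 4 n`. As `q = 1 mod 4`, `x² + y² = 0 mod 4`, so `x`, `y` are both even. `isGen1`: immediate from `gen1`
(`ω = sq q`). `no_half`: if `(s - 1)/2` were a multiplier, `(s - 1)/2 = x + y s` with integers, comparing imaginary parts `(1/2 - y) √q = 0`, impossible.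
-/

set_option autoImplicit false

namespace Pool.Agent.SS.HC

open Polynomial
open Pool.Agent.Work.CM
open Pool.Agent.SS.HB
open scoped Pointwise

private theorem even_of {q : ℕ} (hq1 : q % 4 = 1) {x y n : ℤ} (h : x ^ 2 + q * y ^ 2 = 4 * n) :
    ∃ k m : ℤ, x = 2 * k ∧ y = 2 * m := by
  obtain ⟨c, hc⟩ : ∃ c : ℤ, (q : ℤ) = 4 * c + 1 := ⟨(q : ℤ) / 4, by omega⟩
  rw [hc] at h
  have h1 : (x ^ 2 + y ^ 2) % 4 = 0 := by
    have : x ^ 2 + y ^ 2 = 4 * (n - c * y ^ 2) := by linear_combination h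
    omega
  have hsq : ∀ z : ℤ, (Even z ∧ z ^ 2 % 4 = 0) ∨ z ^ 2 % 4 = 1 := by
    intro z
    rcases Int.even_or_odd' z with ⟨k, hk | hk⟩
    · left
      refine ⟨⟨k, by omega⟩, ?_⟩
      have : z ^ 2 = 4 * k ^ 2 := by rw [hk]; ring
      omega
    · right
      have : z ^ 2 = 4 * (k ^ 2 + k) + 1 := by rw [hk]; ring
      omega
  have hx : Even x ∧ Even y := by
    rcases hsq x with ⟨ex, h2⟩ | h2 <;> rcases hsq y with ⟨ey, h3⟩ | h3
    · exact ⟨ex, ey⟩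
    · omega
    · omega
    · omega
  obtain ⟨⟨k, hk⟩, ⟨m, hm⟩⟩ := hx
  exact ⟨k, m, by omega, by omega⟩

theorem gen1 {q : ℕ} (hq : q.Prime) (hq1 : q % 4 = 1) {L : Submodule ℤ ℂ} (h : IsLat L)
    (hs : HasSq q L) {μ : ℂ} (hμ : IsMul L μ) : ∃ x y : ℤ, μ = x + y * sq q := by
  obtain ⟨x, y, n, h1, h2, -⟩ := two_mul_eq hq h hs hμ
  obtain ⟨k, m, rfl, rfl⟩ := even_of hq1 h2
  refine ⟨k, m, ?_⟩
  push_cast at h1
  linear_combination h1 / 2

theorem isGen1 {q : ℕ} (hq : q.Prime) (hq1 : q % 4 = 1) {L : Submodule ℤ ℂ} (h : IsLat L)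
    (hs : HasSq q L) : IsGen q L (sq q) :=
  ⟨hs, Or.inl rfl, fun _ hμ => gen1 hq hq1 h hs hμ⟩

theorem no_half {q : ℕ} (hq : q.Prime) (hq1 : q % 4 = 1) {L : Submodule ℤ ℂ} (h : IsLat L)
    (hs : HasSq q L) : ¬ IsMul L ((sq q - 1) / 2) := by
  intro hμ
  obtain ⟨x, y, hxy⟩ := gen1 hq hq1 h hs hμ
  have h0 : (((1 - 2 * y : ℤ) : ℝ) : ℂ) * sq q = (((2 * x + 1 : ℤ) : ℝ) : ℂ) := by
    push_cast
    linear_combination 2 * hxy
  have h1 := congrArg Complex.im h0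
  rw [Complex.im_ofReal_mul, Complex.ofReal_im, sq_im] at h1
  have h3 : 0 < Real.sqrt q := Real.sqrt_pos.2 (by exact_mod_cast hq.pos)
  rcases mul_eq_zero.1 h1 with h4 | h4
  · have h5 : (1 - 2 * y : ℤ) = 0 := by exact_mod_cast h4
    omega
  · exact h3.ne' h4

end Pool.Agent.SS.HC
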