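import Mathlib
import Pool.Agent.Work.MP_a5099b_nt.H.HDefs
import Pool.Agent.Work.MP_a5099b_nt.H.Cov
import Pool.Agent.Work.MP_a5099b_nt.H.Sand
import Pool.Agent.Work.MP_a5099b_nt.H.Eigen
import Pool.Agent.Work.MP_a5099b_nt.H1.Gen1

/-!
# Module H1.StabTwo (M): there is at most one stable superlattice of index 2

`s = sq q`. `exists_eigen` for `l = 2`: `(s - e) A ⊆ L` with `e² + q` even, so `e` is odd and `(s - 1) A ⊆ L` (`(s - 1) z = (s - e) z + (e - 1) z`, `2 z ∈ L`). The same for `B`. So `A` and `B` are contained in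
`E = {z | 2 z ∈ L ∧ (s - 1) z ∈ L}`, `L ≤ A ≤ E ≤ 2⁻¹ • L`. The index of `L` in `2⁻¹ • L` is `4` (covolumes), the one in `A` is `2`, so the index of `L` in `E` is `2` or `4`; if it is `4` then `E = 2⁻¹ • L`, so
`(s - 1)/2` is a multiplier of `L`: `no_half`. So it is `2`, `E = A` and `E = B` (`sup_eq`). (Compare the private lemmas of H/Eigen.lean.)
-/

set_option autoImplicit false

namespace Pool.Agent.SS.HC

open Polynomial
open Pool.Agent.Work.CM
open Pool.Agent.SS.HB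
open scoped Pointwise

private theorem int_mul_mem2 {L : Submodule ℤ ℂ} (n : ℤ) {z : ℂ} (hz : z ∈ L) :
    (n : ℂ) * z ∈ L := by
  rw [← zsmul_eq_mul]
  exact L.smul_mem n hz

private theorem eigen_two {q : ℕ} (hq1 : q % 4 = 1) {L A : Submodule ℤ ℂ} (hs : HasSq q L)
    (hA : Sup 2 L A) (hsA : HasSq q A) : ∀ z ∈ A, (sq q - 1) * z ∈ L := by
  obtain ⟨e, he, hd⟩ := exists_eigen Nat.prime_two hs hA hsA
  have hodd : ∃ k : ℤ, e - 1 = 2 * k := by
    rcases Int.even_or_odd' e with ⟨k, hk | hk⟩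
    · exfalso
      obtain ⟨c, hc⟩ := hd
      rw [hk] at hc
      have h1 : (q : ℤ) % 4 = 1 := by omega
      have h2 : (q : ℤ) = 2 * (c - 2 * k ^ 2) := by
        push_cast at hc
        linear_combination hc
      omega
    · exact ⟨k, by rw [hk]; ring⟩
  obtain ⟨k, hk⟩ := hodd
  intro z hz
  have h1 : (sq q - 1) * z = (sq q - e) * z + (k : ℂ) * (((2 : ℕ) : ℂ) * z) := by
    have h2 : ((e : ℂ) - 1) = 2 * k := by exact_mod_cast hk
    push_cast
    linear_combination z * h2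
  rw [h1]
  exact L.add_mem (he z hz) (int_mul_mem2 k (sup_nsmul hA hz))

private theorem le_two {q : ℕ} (hq : q.Prime) (hq1 : q % 4 = 1) {L A B : Submodule ℤ ℂ}
    (hs : HasSq q L) (hA : Sup 2 L A) (hB : Sup 2 L B) (hsA : HasSq q A) (hsB : HasSq q B) :
    B ≤ A := by
  have heA := eigen_two hq1 hs hA hsA
  have heB := eigen_two hq1 hs hB hsB
  have hl0 : ((2 : ℕ) : ℂ) ≠ 0 := by norm_num
  let M : Submodule ℤ ℂ := ((2 : ℕ) : ℂ)⁻¹ • L
  have hM : ∀ x : ℂ, x ∈ M ↔ ((2 : ℕ) : ℂ) * x ∈ L := by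
    intro x
    show x ∈ ((2 : ℕ) : ℂ)⁻¹ • L ↔ _
    rw [mem_smul' (inv_ne_zero hl0), inv_inv]
  let E : Submodule ℤ ℂ :=
    { carrier := {x | ((2 : ℕ) : ℂ) * x ∈ L ∧ (sq q - 1) * x ∈ L}
      add_mem' := fun hx hy => by
        refine ⟨?_, ?_⟩
        · rw [mul_add]
          exact L.add_mem hx.1 hy.1
        · rw [mul_add]
          exact L.add_mem hx.2 hy.2
      zero_mem' := by
        refine ⟨?_, ?_⟩
        · rw [mul_zero]
          exact L.zero_mem
        · rw [mul_zero]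
          exact L.zero_mem
      smul_mem' := fun n x hx => by
        refine ⟨?_, ?_⟩
        · rw [mul_smul_comm]
          exact L.smul_mem n hx.1
        · rw [mul_smul_comm]
          exact L.smul_mem n hx.2 }
  have hAE : A ≤ E := fun x hx => ⟨sup_nsmul hA hx, heA x hx⟩
  have hBE : B ≤ E := fun x hx => ⟨sup_nsmul hB hx, heB x hx⟩
  have hEM : E ≤ M := fun x hx => (hM x).2 hx.1
  have hLM : L ≤ M := fun x hx => (hM x).2 (by
    have := int_mul_mem2 2 hx
    exact_mod_cast this)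
  have hlatM : IsLat M := hA.lat.smul (inv_ne_zero hl0)
  have hlM : ((2 : ℕ) : ℂ) • M = L := by
    show ((2 : ℕ) : ℂ) • (((2 : ℕ) : ℂ)⁻¹ • L) = L
    rw [smul_smul, mul_inv_cancel₀ hl0, one_smul]
  have hidx : L.toAddSubgroup.relIndex M.toAddSubgroup = 2 * 2 := by
    have h1 := relIndex_smul hlatM hl0 (by rw [hlM]; exact hLM)
    rw [hlM] at h1
    have h2 : Complex.normSq ((2 : ℕ) : ℂ) = ((2 * 2 : ℕ) : ℝ) := by
      rw [Complex.normSq_natCast]
      push_cast
      ring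
    rw [h2] at h1
    exact_mod_cast h1
  have hAM : A.toAddSubgroup.relIndex M.toAddSubgroup = 2 := by
    have h1 := AddSubgroup.relIndex_mul_relIndex L.toAddSubgroup A.toAddSubgroup M.toAddSubgroup
      hA.le (hAE.trans hEM)
    rw [hA.idx, hidx] at h1
    exact Nat.eq_of_mul_eq_mul_left two_pos h1
  have hmul := AddSubgroup.relIndex_mul_relIndex A.toAddSubgroup E.toAddSubgroup M.toAddSubgroup
    hAE hEM
  rw [hAM] at hmul
  rcases (Nat.dvd_prime Nat.prime_two).1 (Dvd.intro _ hmul) with h1 | h1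
  · intro z hz
    exact AddSubgroup.relIndex_eq_one.1 h1 (hBE hz)
  · exfalso
    rw [h1] at hmul
    have h2 : E.toAddSubgroup.relIndex M.toAddSubgroup = 1 :=
      Nat.eq_of_mul_eq_mul_left two_pos (hmul.trans (mul_one 2).symm)
    have hME : M ≤ E := AddSubgroup.relIndex_eq_one.1 h2
    refine no_half hq hq1 hA.lat hs ?_
    intro x hx
    have h3 : ((2 : ℕ) : ℂ)⁻¹ * x ∈ M := by
      rw [hM, mul_inv_cancel_left₀ hl0]
      exact hx
    have h4 := (hME h3).2
    have h5 : (sq q - 1) / 2 * x = (sq q - 1) * (((2 : ℕ) : ℂ)⁻¹ * x) := by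
      push_cast
      ring
    rw [h5]
    exact h4

theorem stab_two {q : ℕ} (hq : q.Prime) (hq1 : q % 4 = 1) {L A B : Submodule ℤ ℂ}
    (hs : HasSq q L) (hA : Sup 2 L A) (hB : Sup 2 L B) (hsA : HasSq q A) (hsB : HasSq q B) :
    A = B :=
  le_antisymm (le_two hq hq1 hs hB hA hsB hsA) (le_two hq hq1 hs hA hB hsA hsB)

end Pool.Agent.SS.HC
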