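import Mathlib
import Pool.Agent.Work.MP_a5099b_nt.H.HDefs
import Pool.Agent.Work.MP_a5099b_nt.H.Pair
import Pool.Agent.Work.MP_a5099b_nt.P2.Main
import Pool.Agent.Work.MP_a5099b_nt.H1.StabTwo

/-!
# Module H1.NoTwo (S-M): no isogeny of degree 2 from `L` to `M`

Suppose `Sup 2 L A`, `A` stable, `jL A = jL M`. The set `{L' | Sup 2 L L' ∧ HasSq q L' ∧ (jL L' = jL L ∨ jL L' = jL M)}` is `{A}` (`stab_two`), so by `P.par` (for the prime `2 ≠ q`) `(PhiAt 2 y).rootMultiplicity y` is odd,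
against `phi2_even` (P2/Main.lean, `k = ZMod q`).
-/

set_option autoImplicit false

namespace Pool.Agent.SS.HC

open Polynomial
open Pool.Agent.Work.CM
open Pool.Agent.SS.HB
open scoped Pointwise

theorem no_two {q : ℕ} [Fact q.Prime] (hq1 : q % 4 = 1) (h11 : 11 ≤ q) {k : Type} [Field k]
    [CharP k q] {red : integralClosure ℤ ℂ →+* k} {y : ZMod q} {L M : Submodule ℤ ℂ}
    (P : PairAt q red y L M) (h1 : y ≠ 1728) (h2 : y ≠ 8000) {A : Submodule ℤ ℂ}
    (hA : Sup 2 L A) (hsA : HasSq q A) (hj : jL A = jL M) : False := by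
  have hq : q.Prime := Fact.out
  have h3 : {L' | Sup 2 L L' ∧ HasSq q L' ∧ (jL L' = jL L ∨ jL L' = jL M)} = {A} := by
    ext B
    simp only [Set.mem_ofPred_eq, Set.mem_singleton_iff]
    constructor
    · rintro ⟨hB, hsB, -⟩
      exact stab_two hq hq1 P.sqL hB hA hsB hsA
    · rintro rfl
      exact ⟨hA, hsA, Or.inr hj⟩
  have h4 := P.par Nat.prime_two (by omega)
  rw [h3, Set.ncard_singleton] at h4
  have h5 := phi2_even hq h11 y h1 h2
  exact (Nat.not_odd_iff_even.2 h5) (Nat.odd_iff.2 h4)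

end Pool.Agent.SS.HC
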