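import Mathlib
import Pool.Agent.Work.MP_a5099b_nt.H.HDefs

/-!
# Module H1.NormArith1 (M, Mathlib only): elements of norm `l²`

`q` an odd prime, `l` an odd prime, `l ≠ q`, `x² + q y² = l²`, `y ≠ 0`. `(l - x)(l + x) = q y²`, both factors are positive (`x² < l²`). `x ≠ 0` (else `l² = q y²`, `q ∣ l`). The gcd of `l - x` and `l + x`
divides `2 l` and is prime to `l` (`l ∣ l - x` gives `l ∣ x`, `|x| < l`, `x = 0`), so it divides `2`. Case `x` odd: both factors are even, `((l - x)/2)((l + x)/2) = q (y/2)²` with coprime factors (their sum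
is `l`, their difference `x`, and the gcd of `l` and `x` is one), `q` divides exactly one of them: they are `u²` and `q v²` (`Int.sq_of_coprime`/`Nat.sq_of_coprime` after dividing by `q`), the sum is `l = u² + q v²`.
Case `x` even: both factors are odd and coprime, they are `u²` and `q v²`, the sum is `2 l = u² + q v²`.
-/

set_option autoImplicit false

namespace Pool.Agent.SS.HC

open Polynomial
open Pool.Agent.Work.CM
open Pool.Agent.SS.HB
open scoped Pointwise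

private theorem na_aux1 {q l : ℕ} (hq : q.Prime) (hq2 : q ≠ 2) (hl : l.Prime)
    {x y : ℤ} (hxy : x ^ 2 + q * y ^ 2 = (l : ℤ) ^ 2) (hy : y ≠ 0)
    (hd : (q : ℤ) ∣ l - x) :
    (∃ u v : ℤ, u ^ 2 + q * v ^ 2 = l) ∨ ∃ u v : ℤ, u ^ 2 + q * v ^ 2 = 2 * l := by
  have hq0 : (0 : ℤ) < q := by exact_mod_cast hq.pos
  have hl0 : (0 : ℤ) < l := by exact_mod_cast hl.pos
  have hq3 : (3 : ℤ) ≤ q := by
    have := hq.two_le
    have h3 : 3 ≤ q := by omega
    exact_mod_cast h3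
  have hy2 : (0 : ℤ) < y ^ 2 := by positivity
  have hqy : 0 < (q : ℤ) * y ^ 2 := by positivity
  have hlt : |x| < l := by
    apply abs_lt_of_sq_lt_sq _ (by positivity)
    nlinarith
  obtain ⟨hx1, hx2⟩ := abs_lt.1 hlt
  obtain ⟨u, hu⟩ := hd
  set w := (l : ℤ) + x with hw
  have hw0 : 0 < w := by omega
  have hu0 : 0 < u := by
    by_contra h
    have : (q : ℤ) * u ≤ 0 := mul_nonpos_of_nonneg_of_nonpos hq0.le (not_lt.1 h)
    omega
  have huw : u * w = y ^ 2 := by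
    apply mul_left_cancel₀ hq0.ne'
    rw [← mul_assoc, ← hu, hw]
    linear_combination -hxy
  have h2l : 2 * (l : ℤ) = q * u + w := by
    rw [← hu, hw]
    ring
  obtain ⟨g, u', w', hg0, hcop, rfl, hwe⟩ : ∃ g u' w' : ℤ, 0 < g ∧ Int.gcd u' w' = 1 ∧ u = g * u' ∧
      w = g * w' := by
    have hgpos : 0 < Int.gcd u w := Int.gcd_pos_of_ne_zero_left _ hu0.ne'
    refine ⟨Int.gcd u w, u / Int.gcd u w, w / Int.gcd u w, by exact_mod_cast hgpos,
      Int.gcd_ediv_gcd_ediv_gcd hgpos, ?_, ?_⟩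
    · exact (Int.mul_ediv_cancel' (Int.gcd_dvd_left _ _)).symm
    · exact (Int.mul_ediv_cancel' (Int.gcd_dvd_right _ _)).symm
  rw [hwe] at huw h2l hw0
  have hu'0 : 0 < u' := (mul_pos_iff_of_pos_left hg0).1 hu0
  have hw'0 : 0 < w' := (mul_pos_iff_of_pos_left hg0).1 hw0
  have hgy : g ∣ y := by
    have h1 : g ^ 2 ∣ y ^ 2 := ⟨u' * w', by rw [← huw]; ring⟩
    exact (Int.pow_dvd_pow_iff two_ne_zero).1 h1
  obtain ⟨y', rfl⟩ := hgy
  have huw' : u' * w' = y' ^ 2 := by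
    apply mul_left_cancel₀ (pow_ne_zero 2 hg0.ne')
    linear_combination huw
  obtain ⟨s, hs⟩ : ∃ s : ℤ, u' = s ^ 2 := by
    obtain ⟨s, hs | hs⟩ := Int.sq_of_gcd_eq_one hcop huw'
    · exact ⟨s, hs⟩
    · exfalso
      have := sq_nonneg s
      omega
  obtain ⟨t, ht⟩ : ∃ t : ℤ, w' = t ^ 2 := by
    obtain ⟨t, ht | ht⟩ := Int.sq_of_gcd_eq_one (by rwa [Int.gcd_comm] at hcop)
      (by rwa [mul_comm] at huw')
    · exact ⟨t, ht⟩
    · exfalso
      have := sq_nonneg t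
      omega
  subst hs ht
  have h4 : 2 * (l : ℤ) = g * (q * s ^ 2 + t ^ 2) := by rw [h2l]; ring
  have hgl : ¬ (l : ℤ) ∣ g := by
    rintro ⟨g', hg'⟩
    have h1 : (2 : ℤ) = g' * (q * s ^ 2 + t ^ 2) := by
      apply mul_left_cancel₀ hl0.ne'
      rw [hg'] at h4
      linear_combination h4
    have h2 : (q : ℤ) * s ^ 2 + t ^ 2 ∣ 2 := ⟨g', by rw [h1]; ring⟩
    have h3 := Int.le_of_dvd (by norm_num) h2
    nlinarith
  have hg2 : g ∣ 2 := by
    have h1 : g ∣ 2 * (l : ℤ) := ⟨_, h4⟩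
    have h2 : IsCoprime g (l : ℤ) := by
      have hlp : Prime (l : ℤ) := Nat.prime_iff_prime_int.1 hl
      exact ((Prime.coprime_iff_not_dvd hlp).2 hgl).symm
    exact h2.dvd_of_dvd_mul_right h1
  have hg2' := Int.le_of_dvd (by norm_num) hg2
  have hgcases : g = 1 ∨ g = 2 := by omega
  rcases hgcases with rfl | rfl
  · right
    exact ⟨t, s, by linear_combination -h4⟩
  · left
    exact ⟨t, s, by linarith⟩

theorem norm_arith1 {q l : ℕ} (hq : q.Prime) (hq2 : q ≠ 2) (hl : l.Prime) (hl2 : l ≠ 2)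
    (hlq : l ≠ q) {x y : ℤ} (hxy : x ^ 2 + q * y ^ 2 = (l : ℤ) ^ 2) (hy : y ≠ 0) :
    (∃ u v : ℤ, u ^ 2 + q * v ^ 2 = l) ∨ ∃ u v : ℤ, u ^ 2 + q * v ^ 2 = 2 * l := by
  have hp : Prime (q : ℤ) := Nat.prime_iff_prime_int.1 hq
  have h1 : (q : ℤ) ∣ (l - x) * (l - -x) := ⟨y ^ 2, by linear_combination -hxy⟩
  rcases hp.dvd_or_dvd h1 with h | h
  · exact na_aux1 hq hq2 hl hxy hy h
  · exact na_aux1 hq hq2 hl (x := -x) (by rw [neg_sq]; exact hxy) hy h

end Pool.Agent.SS.HC
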