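import Mathlib
import Pool.Agent.Work.MP_a5099b_nt.H.HDefs
import Pool.Agent.Work.MP_a5099b_nt.A.Lat
import Pool.Agent.Work.MP_a5099b_nt.B.SupF
import Pool.Agent.Work.MP_a5099b_nt.B.Dual
import Pool.Agent.Work.MP_a5099b_nt.H.PSup
import Pool.Agent.Work.MP_a5099b_nt.H.Sand
import Pool.Agent.Work.MP_a5099b_nt.H.Eigen
import Pool.Agent.Work.MP_a5099b_nt.H.TwoConj
import Pool.Agent.Work.MP_a5099b_nt.H1.Gen1
import Pool.Agent.Work.MP_a5099b_nt.H1.NormArith1
import Pool.Agent.Work.MP_a5099b_nt.H1.TwoIdx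

/-!
# Module H1.One1 (M): exactly one superlattice

As `odd_one` in H/OddOne.lean (proved; copy it). Put `A = x⁻¹ • M`: it is in the set. (*) There is no multiplier `ν` of `L` with `‖ν‖² = l` (`two_conj`, `stable_three`). Let `B` be in the set. `jL B = jL L` is
excluded by (*) (`exists_smul_of_jL`, `psup'`). If `jL B = jL M = jL A` then `A = κ • B`, `‖κ‖ = 1`, `ε = l κ` is a multiplier of `L`, `‖ε‖² = l²`. `gen1`: `ε = x + y s`, `x² + q y² = l²`. If `y = 0` then `x = ± l`,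
`κ = ± 1`, `A = B`. If `y ≠ 0`: `norm_arith1`: `u² + q v² = l` is excluded by (*) (`ν = u + v s`), `u² + q v² = 2 l`: `two_idx` gives `Sup 2 (w • A) L`, so `Sup 2 L ((2 : ℂ)⁻¹ • (w • A))` (`Sup_dual` in B/Dual.lean), which is
stable (`isMul_smul_iff`) with invariant `jL A = jL M` (`jL_smul`): excluded by `hno`. So the set is `{A}`.
-/

set_option autoImplicit false

namespace Pool.Agent.SS.HC

open Polynomial
open Pool.Agent.Work.CM
open Pool.Agent.SS.HB
open scoped Pointwise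

theorem one1 {q l : ℕ} (hq : q.Prime) (hq1 : q % 4 = 1) (hl : l.Prime) (hl2 : l ≠ 2)
    (hlq : l ≠ q) {L M : Submodule ℤ ℂ} (hL : IsLat L) (hM : IsLat M) (hsL : HasSq q L)
    (hsM : HasSq q M) (h0 : jL L ≠ 0) (h1 : jL L ≠ 1728) (hj : jL L ≠ jL M)
    (hno : ∀ A : Submodule ℤ ℂ, Sup 2 L A → HasSq q A → jL A ≠ jL M) {x : ℂ} (hx : x ≠ 0)
    (h : Sup l (x • L) M) :
    {L' | Sup l L L' ∧ HasSq q L' ∧ (jL L' = jL L ∨ jL L' = jL M)}.ncard = 1 := by
  have hl0 : (0 : ℝ) < (l : ℝ) := by exact_mod_cast hl.pos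
  have hxi : x⁻¹ ≠ 0 := inv_ne_zero hx
  set A : Submodule ℤ ℂ := x⁻¹ • M with hAdef
  have hA : Sup l L A := by
    have h2 := Sup_smul h hxi
    rwa [inv_smul_smul₀ hx L] at h2
  have hsA : HasSq q A := hasSq_iff.2 ((hasSq_iff.1 hsM).smul hxi)
  have hjA : jL A = jL M := jL_smul hM hxi
  have hstar : ∀ ν : ℂ, IsMul L ν → ‖ν‖ ^ 2 = l → False := by
    intro ν hν hN
    have hν0 : ν ≠ 0 := by
      rintro rfl
      rw [norm_zero] at hN
      norm_num at hN
      exact hl.ne_zero (by exact_mod_cast hN.symm)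
    have hν0' : starRingEnd ℂ ν ≠ 0 := by
      rwa [Ne, map_eq_zero]
    obtain ⟨hB, hB', hsB, hsB', hne⟩ := two_conj hq hl hlq hL hsL h0 h1 hν hN
    rcases stable_three hq hl hl2 hlq hsL hA hB hB' hsA hsB hsB' with h2 | h2 | h2
    · apply hj
      rw [← hjA, h2, jL_smul hL (inv_ne_zero hν0)]
    · apply hj
      rw [← hjA, h2, jL_smul hL (inv_ne_zero hν0')]
    · exact hne h2
  rw [Set.ncard_eq_one]
  refine ⟨A, Set.eq_singleton_iff_unique_mem.2 ⟨⟨hA, hsA, Or.inr hjA⟩, ?_⟩⟩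
  rintro B ⟨hB, hsB, hjB⟩
  rcases hjB with hjB | hjB
  · exfalso
    obtain ⟨c, hc, rfl⟩ := exists_smul_of_jL hL hB.lat' hjB.symm
    obtain ⟨h2, h3⟩ := psup' hc hB
    exact hstar _ h2 h3
  · obtain ⟨κ, hκ, hAB⟩ := exists_smul_of_jL hB.lat' hA.lat' (by rw [hjB, hjA])
    have hcB := cov_pos hB.lat'
    have hcA : cov A = ‖κ‖ ^ 2 * cov B := by
      rw [hAB]
      exact cov_smul hB.lat' hκ
    have hc1 := cov_sup hA
    have hc2 := cov_sup hB
    have hκ1 : ‖κ‖ ^ 2 = 1 := by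
      have h2 : (l : ℝ) * (‖κ‖ ^ 2 * cov B) = (l : ℝ) * cov B := by
        rw [← hcA, ← hc1, hc2]
      have h3 := mul_left_cancel₀ hl0.ne' h2
      have h4 : ‖κ‖ ^ 2 * cov B = 1 * cov B := by rw [h3, one_mul]
      exact mul_right_cancel₀ hcB.ne' h4
    have hε : IsMul L ((l : ℂ) * κ) := by
      intro z hz
      have h2 : κ * z ∈ A := by
        rw [hAB]
        exact (mem_smul_iff hκ).2 (hB.le hz)
      rw [mul_assoc]
      exact sup_nsmul hA h2
    have hεN : ‖(l : ℂ) * κ‖ ^ 2 = (l : ℝ) ^ 2 := by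
      rw [norm_mul, mul_pow, hκ1, mul_one, Complex.norm_natCast]
    have hlC : (l : ℂ) ≠ 0 := by exact_mod_cast hl.ne_zero
    obtain ⟨X, Y, hXY⟩ := gen1 hq hq1 hL hsL hε
    have hnorm : ∀ a b : ℤ, ‖(a : ℂ) + b * sq q‖ ^ 2 = ((a ^ 2 + q * b ^ 2 : ℤ) : ℝ) := by
      intro a b
      have hsq : Real.sqrt q * Real.sqrt q = q := Real.mul_self_sqrt (Nat.cast_nonneg q)
      rw [Complex.sq_norm, Complex.normSq_apply]
      simp only [Complex.add_re, Complex.add_im, Complex.mul_re, Complex.mul_im,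
        Complex.intCast_re, Complex.intCast_im, sq_re, sq_im]
      push_cast
      linear_combination (b : ℝ) ^ 2 * hsq
    have hmul : ∀ a b : ℤ, IsMul L ((a : ℂ) + b * sq q) := fun a b =>
      (IsMul.int L a).add ((IsMul.int L b).mul (hasSq_iff.1 hsL))
    have hN2 : X ^ 2 + q * Y ^ 2 = (l : ℤ) ^ 2 := by
      have h2 := hnorm X Y
      rw [← hXY, hεN] at h2
      exact_mod_cast h2.symm
    by_cases hY : Y = 0
    · have h2 : (X - l) * (X + l) = 0 := by
        rw [hY] at hN2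
        linear_combination hN2
      have h3 : (l : ℂ) * κ = (X : ℂ) := by
        rw [hXY, hY]
        simp
      rcases mul_eq_zero.1 h2 with h4 | h4
      · have h5 : κ = 1 := by
          apply mul_left_cancel₀ hlC
          rw [h3, mul_one, sub_eq_zero.1 h4]
          simp
        rw [hAB, h5, one_smul]
      · have h5 : κ = -1 := by
          apply mul_left_cancel₀ hlC
          rw [h3, mul_neg_one, eq_neg_of_add_eq_zero_left h4]
          simp
        rw [hAB, h5]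
        ext z
        rw [mem_smul' (by norm_num)]
        have h3 : ((-1 : ℂ))⁻¹ * z = -z := by
          norm_num
        rw [h3, Submodule.neg_mem_iff]
    · exfalso
      have hq2 : q ≠ 2 := by
        rintro rfl
        norm_num at hq1
      rcases norm_arith1 hq hq2 hl hl2 hlq hN2 hY with ⟨u, v, huv⟩ | ⟨u, v, huv⟩
      · refine hstar _ (hmul u v) ?_
        rw [hnorm, huv]
        simp
      · obtain ⟨w, hw, hwA⟩ := two_idx hq hl hsL hA hsA huv
        have h2 := Sup_dual Nat.prime_two hwA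
        have hc : (((2 : ℕ) : ℂ))⁻¹ ≠ 0 := inv_ne_zero (by norm_num)
        refine hno _ h2 ?_ ?_
        · exact hasSq_iff.2 (((hasSq_iff.1 hsA).smul hw).smul hc)
        · rw [jL_smul (hA.lat'.smul hw) hc, jL_smul hA.lat' hw, hjA]

end Pool.Agent.SS.HC
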