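import Mathlib
import Pool.Agent.Work.MP_a5099b_nt.H.HDefs
import Pool.Agent.Work.MP_a5099b_nt.B.SupF
import Pool.Agent.Work.MP_a5099b_nt.H.Pair
import Pool.Agent.Work.MP_a5099b_nt.H.Eigen
import Pool.Agent.Work.MP_a5099b_nt.SpecM
import Pool.Agent.Work.MP_a5099b_nt.H1.NoTwo
import Pool.Agent.Work.MP_a5099b_nt.H1.One1

/-!
# Module H1.Genus1 (S-M): the degrees are `≡ 3 mod 4`

`pair_one`: `one1` with `no_two` (`P.j0` etc.). `pair_odd`: `P.par`. `pair_jac`: put `A = x⁻¹ • M`, a stable superlattice of `L` of index `l` (`Sup_smul`); `exists_eigen`: `l ∣ e² + q`, so `-q` is a square modulo `l`, and `l` does not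
divide `q`: `jacobiSym (-q) l = legendreSym l (-q) = 1`.
`genus1`: `l ≥ 5`. If `-l` were a square modulo `q` then `even_of_split` (SpecM) contradicts `pair_odd`. So `legendreSym q (-l) = -1`; as `q = 1 mod 4`, `legendreSym q (-1) = 1`, so `legendreSym q l = -1`. And `legendreSym l (-q) = 1`
with quadratic reciprocity `legendreSym l q = legendreSym q l = -1` (`q = 1 mod 4`: `legendreSym.quadratic_reciprocity_one_mod_four` or `jacobiSym.quadratic_reciprocity_one_mod_four`), so `legendreSym l (-1) = -1` and `l = 3 mod 4`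
(`ZMod.χ₄`, `legendreSym.at_neg_one`).
-/

set_option autoImplicit false

namespace Pool.Agent.SS.HC

open Polynomial
open Pool.Agent.Work.CM
open Pool.Agent.SS.HB
open scoped Pointwise

theorem pair_one {q : ℕ} [Fact q.Prime] (hq1 : q % 4 = 1) (h11 : 11 ≤ q) {k : Type} [Field k]
    [CharP k q] {red : integralClosure ℤ ℂ →+* k} {y : ZMod q} {L M : Submodule ℤ ℂ}
    (P : PairAt q red y L M) (h1 : y ≠ 1728) (h2 : y ≠ 8000) {l : ℕ} (hl : l.Prime)
    (hl2 : l ≠ 2) (hlq : l ≠ q) {x : ℂ} (hx : x ≠ 0) (h : Sup l (x • L) M) :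
    {L' | Sup l L L' ∧ HasSq q L' ∧ (jL L' = jL L ∨ jL L' = jL M)}.ncard = 1 := by
  exact one1 Fact.out hq1 hl hl2 hlq P.latL P.latM P.sqL P.sqM P.j0 P.j1 P.ne
    (fun A hA hsA hj => no_two hq1 h11 P h1 h2 hA hsA hj) hx h

theorem pair_odd {q : ℕ} [Fact q.Prime] (hq1 : q % 4 = 1) (h11 : 11 ≤ q) {k : Type} [Field k]
    [CharP k q] {red : integralClosure ℤ ℂ →+* k} {y : ZMod q} {L M : Submodule ℤ ℂ}
    (P : PairAt q red y L M) (h1 : y ≠ 1728) (h2 : y ≠ 8000) {l : ℕ} (hl : l.Prime)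
    (hl2 : l ≠ 2) (hlq : l ≠ q) {x : ℂ} (hx : x ≠ 0) (h : Sup l (x • L) M) :
    Odd ((PhiAt l y).rootMultiplicity y) := by
  have hp := P.par hl hlq
  rw [pair_one hq1 h11 P h1 h2 hl hl2 hlq hx h] at hp
  rw [Nat.odd_iff]
  exact hp

theorem pair_jac {q : ℕ} [Fact q.Prime] {k : Type} [Field k]
    [CharP k q] {red : integralClosure ℤ ℂ →+* k} {y : ZMod q} {L M : Submodule ℤ ℂ}
    (P : PairAt q red y L M) {l : ℕ} (hl : l.Prime) (hl2 : l ≠ 2) (hlq : l ≠ q) {x : ℂ}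
    (hx : x ≠ 0) (h : Sup l (x • L) M) : jacobiSym (-q) l = 1 := by
  have hq : q.Prime := Fact.out
  have : Fact l.Prime := ⟨hl⟩
  have hA : Sup l L (x⁻¹ • M) := by
    have h1 := Sup_smul h (inv_ne_zero hx)
    rwa [smul_smul, inv_mul_cancel₀ hx, one_smul] at h1
  have hsA : HasSq q (x⁻¹ • M) := IsMul.smul P.sqM (inv_ne_zero hx)
  obtain ⟨e, -, he⟩ := exists_eigen hl P.sqL hA hsA
  have hq0 : ((-(q : ℤ) : ℤ) : ZMod l) ≠ 0 := by
    intro h0
    rw [ZMod.intCast_zmod_eq_zero_iff_dvd, dvd_neg] at h0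
    have h1 := Int.natCast_dvd_natCast.mp h0
    exact hlq ((Nat.prime_dvd_prime_iff_eq hl hq).1 h1)
  have hsq : IsSquare ((-(q : ℤ) : ℤ) : ZMod l) := by
    refine ⟨e, ?_⟩
    have h1 := (ZMod.intCast_zmod_eq_zero_iff_dvd _ l).2 he
    push_cast at h1 ⊢
    linear_combination (-1) * h1
  rw [← jacobiSym.legendreSym.to_jacobiSym]
  exact (legendreSym.eq_one_iff l hq0).mpr hsq

theorem genus1 {q : ℕ} [Fact q.Prime] (hq1 : q % 4 = 1) (h11 : 11 ≤ q) {k : Type} [Field k]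
    [CharP k q] {red : integralClosure ℤ ℂ →+* k} {y : ZMod q} {L M : Submodule ℤ ℂ}
    (P : PairAt q red y L M) (hy : SSj q y) (h0 : y ≠ 0) (h1 : y ≠ 1728) (h2 : y ≠ 8000) {l : ℕ}
    (hl : l.Prime) (hl5 : 5 ≤ l) (hlq : l ≠ q) {x : ℂ} (hx : x ≠ 0) (h : Sup l (x • L) M) :
    l % 4 = 3 := by
  have hq : q.Prime := Fact.out
  have hF : Fact l.Prime := ⟨hl⟩
  have hl2 : l ≠ 2 := by omega
  have hns : ¬ IsSquare (-(l : ZMod q)) := by
    intro hs
    have he := even_of_split (by omega) y hy h0 h1 hl hl5 hlq hs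
    exact (Nat.not_even_iff_odd.2 (pair_odd hq1 h11 P h1 h2 hl hl2 hlq hx h)) he
  have hm1 : IsSquare (-1 : ZMod q) := by
    rw [ZMod.exists_sq_eq_neg_one_iff]
    omega
  have hnl : ¬ IsSquare (l : ZMod q) := by
    intro hs
    apply hns
    have h3 := hm1.mul hs
    rwa [neg_one_mul] at h3
  have hnq : ¬ IsSquare (q : ZMod l) := by
    rwa [← ZMod.exists_sq_eq_prime_iff_of_mod_four_eq_one hq1 hl2]
  by_contra hl4
  have hm2 : IsSquare (-1 : ZMod l) := by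
    rw [ZMod.exists_sq_eq_neg_one_iff]
    exact hl4
  have hj := pair_jac P hl hl2 hlq hx h
  rw [← jacobiSym.legendreSym.to_jacobiSym] at hj
  have hq0 : ((-(q : ℤ) : ℤ) : ZMod l) ≠ 0 := by
    intro h0'
    rw [ZMod.intCast_zmod_eq_zero_iff_dvd, dvd_neg] at h0'
    have h1' := Int.natCast_dvd_natCast.mp h0'
    exact hlq ((Nat.prime_dvd_prime_iff_eq hl hq).1 h1')
  have hsq := (legendreSym.eq_one_iff l hq0).1 hj
  apply hnq
  have h4 := hm2.mul hsq
  push_cast at h4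
  rwa [neg_one_mul, neg_neg] at h4

end Pool.Agent.SS.HC
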