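import Mathlib
import Pool.Agent.Work.MP_a5099b_nt.H.HDefs

/-!
# Module H1.Local1 (M, Mathlib only): values of a form of determinant `q ≡ 1 mod 4` modulo `8 m`

`F = a x² + 2 b x y + c y²`, `a c - b² = q`.
* `odd_mod4`: odd values of `F` are congruent modulo `4`: all of this only depends on `a, b, c, x, y, x', y'` modulo 4 and `a c - b² = 1 mod 4`: `decide` over `ZMod 4` (or `(F(x,y) F(x',y')) = X² + q Y²` with integers
  `X = a x x' + b (x y' + x' y) + c y y'`, `Y = x y' - x' y`, an odd number of the form `X² + q Y²` is `1 mod 4`; this identity needs no case distinction). `exists_odd`: `a` or `c` is odd (if both are even, `b² = -q = 3 mod 4`); `F(1,0) = a`, `F(0,1) = c`.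
* `form_rep1`: modulo the odd primes of `m`: as `form_rep` in H/Local.lean (proved; copy the private lemmas; there `b² - 4 a c = -4 q`; here take `2 b` for `b`). Modulo `8`: if `F` has an odd value `= 3 mod 4` then it represents every
  `r` with `r = 3 mod 4` modulo `8`: `decide +kernel` over `ZMod 8` (`a c - b² = 1` or `5`).
-/

set_option autoImplicit false

namespace Pool.Agent.SS.HC

open Polynomial
open Pool.Agent.Work.CM
open Pool.Agent.SS.HB
open scoped Pointwise

private theorem four_dec : ∀ F G X Y : ZMod 4, (F = 1 ∨ F = 3) → (G = 1 ∨ G = 3) →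
    F * G = X ^ 2 + Y ^ 2 → F = G := by
  decide

private theorem odd_zmod4 {z : ℤ} (hz : Odd z) : (z : ZMod 4) = 1 ∨ (z : ZMod 4) = 3 := by
  have h1 : z % 4 = 1 ∨ z % 4 = 3 := by
    have := Int.odd_iff.mp hz
    omega
  rcases h1 with h1 | h1
  · left
    have h2 : z ≡ 1 [ZMOD 4] := h1
    have h3 := (ZMod.intCast_eq_intCast_iff z 1 4).2 h2
    simpa using h3
  · right
    have h2 : z ≡ 3 [ZMOD 4] := h1
    have h3 := (ZMod.intCast_eq_intCast_iff z 3 4).2 h2
    simpa using h3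

private theorem four_int {q : ℕ} (hq1 : q % 4 = 1) {F G X Y : ℤ} (hF : Odd F) (hG : Odd G)
    (e : F * G = X ^ 2 + q * Y ^ 2) : F ≡ G [ZMOD 4] := by
  have hq4 : (q : ZMod 4) = 1 := by
    rw [← ZMod.natCast_mod q 4, hq1]
    rfl
  have e4 := congrArg (Int.cast : ℤ → ZMod 4) e
  push_cast at e4
  rw [hq4, one_mul] at e4
  exact (ZMod.intCast_eq_intCast_iff _ _ 4).1
    (four_dec _ _ _ _ (odd_zmod4 hF) (odd_zmod4 hG) e4)

theorem odd_mod4 {q : ℕ} (hq1 : q % 4 = 1) {a b c : ℤ} (hd : a * c - b ^ 2 = q)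
    {x y x' y' : ℤ} (h : Odd (a * x ^ 2 + 2 * b * x * y + c * y ^ 2))
    (h' : Odd (a * x' ^ 2 + 2 * b * x' * y' + c * y' ^ 2)) :
    a * x ^ 2 + 2 * b * x * y + c * y ^ 2 ≡ a * x' ^ 2 + 2 * b * x' * y' + c * y' ^ 2 [ZMOD 4] := by
  refine four_int (X := a * x * x' + b * (x * y' + x' * y) + c * y * y')
    (Y := x * y' - x' * y) hq1 h h' ?_
  linear_combination (x * y' - x' * y) ^ 2 * hd

theorem exists_odd_value {q : ℕ} (hq1 : q % 4 = 1) {a b c : ℤ} (hd : a * c - b ^ 2 = q) :
    ∃ x y : ℤ, Odd (a * x ^ 2 + 2 * b * x * y + c * y ^ 2) := by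
  by_contra hcon
  push Not at hcon
  have ha : Even a := by
    have := hcon 1 0
    rw [Int.not_odd_iff_even] at this
    simpa using this
  have hc : Even c := by
    have := hcon 0 1
    rw [Int.not_odd_iff_even] at this
    simpa using this
  obtain ⟨s, hs⟩ := ha
  obtain ⟨t, ht⟩ := hc
  have h1 : b ^ 2 % 4 = 0 ∨ b ^ 2 % 4 = 1 := by
    rcases Int.even_or_odd' b with ⟨k, hk | hk⟩
    · left
      have : b ^ 2 = 4 * k ^ 2 := by rw [hk]; ring
      omega
    · right
      have : b ^ 2 = 4 * (k ^ 2 + k) + 1 := by rw [hk]; ring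
      omega
  have h2 : a * c = 4 * (s * t) := by rw [hs, ht]; ring
  omega

private theorem loc8 : ∀ a b c : ZMod 8, (a * c - b ^ 2 = 1 ∨ a * c - b ^ 2 = 5) →
    (∃ x y : ZMod 8, (a * x ^ 2 + 2 * b * x * y + c * y ^ 2).val % 4 = 3) →
    ∀ r : ZMod 8, r.val % 4 = 3 →
    ∃ x y : ZMod 8, a * x ^ 2 + 2 * b * x * y + c * y ^ 2 = r := by
  decide +kernel

private def Rp (a b c r : ℤ) (N : ℕ) : Prop :=
  ∃ x y : ℤ, a * x ^ 2 + 2 * b * x * y + c * y ^ 2 ≡ r [ZMOD N]

private theorem rp_of {a b c r : ℤ} {N : ℕ} (x y : ZMod N) [NeZero N]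
    (h : (a : ZMod N) * x ^ 2 + 2 * b * x * y + c * y ^ 2 = r) : Rp a b c r N := by
  refine ⟨x.val, y.val, ?_⟩
  rw [← ZMod.intCast_eq_intCast_iff]
  push_cast
  rw [ZMod.natCast_zmod_val, ZMod.natCast_zmod_val]
  exact h

private theorem rp_mul {a b c r : ℤ} {M N : ℕ} (hc : Nat.Coprime M N) (h1 : Rp a b c r M)
    (h2 : Rp a b c r N) : Rp a b c r (M * N) := by
  obtain ⟨x1, y1, h1⟩ := h1
  obtain ⟨x2, y2, h2⟩ := h2
  obtain ⟨u, v, huv⟩ := Nat.isCoprime_iff_coprime.mpr hc
  have hM : ∀ s t : ℤ, t * (u * M) + s * (v * N) ≡ s [ZMOD M] := fun s t => by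
    rw [Int.modEq_iff_dvd]
    refine ⟨s * u - t * u, ?_⟩
    linear_combination (-s) * huv
  have hN : ∀ s t : ℤ, t * (u * M) + s * (v * N) ≡ t [ZMOD N] := fun s t => by
    rw [Int.modEq_iff_dvd]
    refine ⟨t * v - s * v, ?_⟩
    linear_combination (-t) * huv
  refine ⟨x2 * (u * M) + x1 * (v * N), y2 * (u * M) + y1 * (v * N), ?_⟩
  have e : ((M * N : ℕ) : ℤ) = (M : ℤ) * N := by push_cast; ring
  rw [e, ← Int.modEq_and_modEq_iff_modEq_mul (by simpa using hc)]
  constructor
  · refine Int.ModEq.trans ?_ h1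
    exact (((((hM _ _).pow 2).mul_left a).add (((hM _ _).mul_left (2 * b)).mul (hM _ _))).add
      (((hM _ _).pow 2).mul_left c))
  · refine Int.ModEq.trans ?_ h2
    exact (((((hN _ _).pow 2).mul_left a).add (((hN _ _).mul_left (2 * b)).mul (hN _ _))).add
      (((hN _ _).pow 2).mul_left c))

private theorem rp_sq {p : ℕ} [Fact p.Prime] (hp2 : p ≠ 2) {q a b c r : ZMod p} (hq : q ≠ 0)
    (ha : a ≠ 0) (hd : a * c - b ^ 2 = q) :
    ∃ x y : ZMod p, a * x ^ 2 + 2 * b * x * y + c * y ^ 2 = r := by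
  obtain ⟨X, y, hXy⟩ := FiniteField.exists_root_sum_quadratic
    (f := Polynomial.C 1 * Polynomial.X ^ 2 + Polynomial.C 0 * Polynomial.X +
      Polynomial.C (-(a * r)))
    (g := Polynomial.C q * Polynomial.X ^ 2 + Polynomial.C 0 * Polynomial.X +
      Polynomial.C 0)
    (Polynomial.degree_quadratic one_ne_zero) (Polynomial.degree_quadratic hq)
    (by
      rw [ZMod.card]
      exact (Nat.Prime.odd_of_ne_two Fact.out hp2).not_two_dvd_nat |> fun h => by omega)
  simp only [Polynomial.eval_add, Polynomial.eval_mul, Polynomial.eval_C, Polynomial.eval_pow,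
    Polynomial.eval_X, one_mul, zero_mul, add_zero] at hXy
  refine ⟨(X - b * y) / a, y, ?_⟩
  field_simp
  linear_combination hXy + y ^ 2 * hd

private theorem rp_prime {q p : ℕ} (hq : q.Prime) (hp : p.Prime) (hp2 : p ≠ 2) (hpq : p ≠ q)
    {a b c : ℤ} (hd : a * c - b ^ 2 = q) (r : ℤ) : Rp a b c r p := by
  have : Fact p.Prime := ⟨hp⟩
  have hq0 : (q : ZMod p) ≠ 0 := by
    rw [Ne, ZMod.natCast_eq_zero_iff]
    intro h
    exact hpq ((Nat.prime_dvd_prime_iff_eq hp hq).mp h)
  have hd' : (a : ZMod p) * c - (b : ZMod p) ^ 2 = q := by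
    exact_mod_cast congrArg (Int.cast : ℤ → ZMod p) hd
  by_cases ha : (a : ZMod p) = 0
  · by_cases hc : (c : ZMod p) = 0
    · have h2 : (2 : ZMod p) ≠ 0 := by
        intro h0
        have h1 : ((2 : ℕ) : ZMod p) = 0 := by exact_mod_cast h0
        rw [ZMod.natCast_eq_zero_iff] at h1
        exact hp2 ((Nat.prime_dvd_prime_iff_eq hp Nat.prime_two).mp h1)
      have hb : (b : ZMod p) ≠ 0 := by
        intro hb
        rw [ha, hb] at hd'
        apply hq0
        linear_combination -hd'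
      refine rp_of ((r : ZMod p) / (2 * b)) 1 ?_
      rw [ha, hc]
      field_simp
      ring
    · obtain ⟨x, y, h⟩ := rp_sq (r := (r : ZMod p)) hp2 hq0 hc
        (b := b) (c := a) (by linear_combination hd')
      refine rp_of y x ?_
      linear_combination h
  · obtain ⟨x, y, h⟩ := rp_sq (r := (r : ZMod p)) hp2 hq0 ha hd'
    exact rp_of x y h

theorem form_rep1 {q : ℕ} (hq : q.Prime) (hq1 : q % 4 = 1) {a b c : ℤ}
    (hd : a * c - b ^ 2 = q) {x₀ y₀ : ℤ}
    (h3 : a * x₀ ^ 2 + 2 * b * x₀ * y₀ + c * y₀ ^ 2 ≡ 3 [ZMOD 4]) {m : ℕ} (hm : Odd m)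
    (hm2 : Squarefree m) (hqm : ¬ q ∣ m) {r : ℤ} (hr : r ≡ 3 [ZMOD 4]) :
    ∃ x y : ℤ, a * x ^ 2 + 2 * b * x * y + c * y ^ 2 ≡ r [ZMOD (8 * m : ℕ)] := by
  have hmm : Rp a b c r m := by
    clear hr h3
    induction m using Nat.recOnPosPrimePosCoprime with
    | prime_pow p n hp hn =>
      have hn1 : n = 1 := by
        by_contra hne
        have h2 : 2 ≤ n := by omega
        have h3 : p * p ∣ p ^ n := by
          rw [← pow_two]
          exact pow_dvd_pow p h2
        exact hp.not_isUnit (hm2 p h3)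
      subst hn1
      rw [pow_one] at hm hqm ⊢
      refine rp_prime hq hp ?_ ?_ hd r
      · rintro rfl
        exact absurd hm (by decide)
      · rintro rfl
        exact hqm (dvd_refl _)
    | zero => exact absurd hm (by decide)
    | one => exact ⟨0, 0, Int.modEq_one⟩
    | coprime s t hs ht hst ihs iht =>
      refine rp_mul hst (ihs ?_ ?_ ?_) (iht ?_ ?_ ?_)
      · exact (Nat.odd_mul.mp hm).1
      · exact hm2.of_mul_left
      · exact fun h => hqm (h.mul_right t)
      · exact (Nat.odd_mul.mp hm).2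
      · exact hm2.of_mul_right
      · exact fun h => hqm (h.mul_left s)
  have h8 : Rp a b c r 8 := by
    have hval : ∀ z : ℤ, z ≡ 3 [ZMOD 4] → (z : ZMod 8).val % 4 = 3 := by
      intro z hz
      have h1 : ((z : ZMod 8).val : ℤ) = z % 8 := by
        rw [ZMod.val_intCast]
        norm_num
      have h2 : z % 4 = 3 := hz
      omega
    have hcase : (a : ZMod 8) * c - (b : ZMod 8) ^ 2 = 1 ∨ (a : ZMod 8) * c - (b : ZMod 8) ^ 2 = 5 := by
      have h1 : (a : ZMod 8) * c - (b : ZMod 8) ^ 2 = (q : ZMod 8) := by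
        have := congrArg (Int.cast : ℤ → ZMod 8) hd
        push_cast at this
        exact this
      rw [h1]
      have h2 : q % 8 = 1 ∨ q % 8 = 5 := by omega
      have h3 : ((q % 8 : ℕ) : ZMod 8) = (q : ZMod 8) := ZMod.natCast_mod q 8
      rcases h2 with h2 | h2
      · left
        rw [← h3, h2]
        decide
      · right
        rw [← h3, h2]
        decide
    obtain ⟨x, y, hxy⟩ := loc8 a b c hcase
      ⟨x₀, y₀, by
        have := hval _ h3
        push_cast at this
        exact this⟩ r (hval r hr)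
    exact rp_of x y hxy
  have hco : Nat.Coprime 8 m := by
    have : Nat.Coprime 2 m := (Nat.coprime_two_left).mpr hm
    exact Nat.Coprime.pow_left 3 this
  exact rp_mul hco h8 hmm

end Pool.Agent.SS.HC
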