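import Mathlib
import Pool.Agent.Work.MP_a5099b_nt.H.HDefs
import Pool.Agent.Work.MP_a5099b_nt.H.Pair
import Pool.Agent.Work.MP_a5099b_nt.I1.Fin
import Pool.Agent.Work.MP_a5099b_nt.H1.HomForm1
import Pool.Agent.Work.MP_a5099b_nt.H1.Genus1
import Pool.Agent.Work.MP_a5099b_nt.H1.Local1

/-!
# Module H1.Three1 (S-M): primes `l ≡ r mod 8 m` which are degrees

`hom_form1` (`P.mul`): the form `F` of determinant `q`. `exists_odd_value`: `F(x₀, y₀)` odd. `primes_even` (I1/Fin.lean, namespace `Pool.Agent.Work.MP_a5099b_nt.PrG`) with `m = 1`: a prime `l₀ > q + 5`, `l₀ = F(x₀, y₀) mod 8`, a value of `F`; by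
`genus1` `l₀ = 3 mod 4`, so `F(x₀, y₀) = 3 mod 4`. `form_rep1`: `F(x₁, y₁) = r mod 8 m`, prime to `8 m`. `primes_even` again: a prime `l > B + q + 5`, `l = r mod 8 m`, a value of `F`; `pair_jac`.
-/

set_option autoImplicit false

namespace Pool.Agent.SS.HC

open Polynomial
open Pool.Agent.Work.CM
open Pool.Agent.SS.HB
open scoped Pointwise

theorem three1 {q : ℕ} [Fact q.Prime] (hq1 : q % 4 = 1) (h11 : 11 ≤ q) {k : Type} [Field k]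
    [CharP k q] {red : integralClosure ℤ ℂ →+* k} {y : ZMod q} {L M : Submodule ℤ ℂ}
    (P : PairAt q red y L M) (hy : SSj q y) (h0 : y ≠ 0) (h1 : y ≠ 1728) (h2 : y ≠ 8000) {m : ℕ}
    (hm : Odd m) (hm2 : Squarefree m) (hqm : ¬ q ∣ m) {r : ℕ} (hr : Nat.Coprime r (8 * m))
    (hr4 : r % 4 = 3) (B : ℕ) :
    ∃ l : ℕ, l.Prime ∧ B < l ∧ l ≡ r [MOD 8 * m] ∧ jacobiSym (-q) l = 1 ∧
      ∃ x : ℂ, x ≠ 0 ∧ Sup l (x • L) M := by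
  have hq : q.Prime := Fact.out
  obtain ⟨a, b, c, ha, hd, hf⟩ := hom_form1 hq hq1 P.latL P.latM P.sqL P.mul
  obtain ⟨x₀, y₀, hodd⟩ := exists_odd_value hq1 hd
  have hc0 : IsCoprime (a * x₀ ^ 2 + 2 * b * x₀ * y₀ + c * y₀ ^ 2) ((8 * 1 : ℕ) : ℤ) := by
    have h8 : ((8 * 1 : ℕ) : ℤ) = 2 ^ 3 := by norm_num
    rw [h8]
    exact IsCoprime.pow_right (Int.isCoprime_two_right.2 hodd)
  obtain ⟨l₀, hl₀B, hl₀, hl₀m, x₁, y₁, hl₀v⟩ :=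
    Pool.Agent.Work.MP_a5099b_nt.PrG.primes_even q hq hq1 1 odd_one squarefree_one
      hq.not_dvd_one a b c ha hd x₀ y₀ hc0 (q + 5)
  obtain ⟨x, hx, hsup⟩ := hf x₁ y₁ l₀ hl₀.pos hl₀v
  have h34 := genus1 hq1 h11 P hy h0 h1 h2 hl₀ (by omega) (by omega) hx hsup
  have h3 : a * x₀ ^ 2 + 2 * b * x₀ * y₀ + c * y₀ ^ 2 ≡ 3 [ZMOD 4] := by
    have k1 : (l₀ : ℤ) ≡ a * x₀ ^ 2 + 2 * b * x₀ * y₀ + c * y₀ ^ 2 [ZMOD 4] :=
      hl₀m.of_dvd (by norm_num)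
    have k2 : (l₀ : ℤ) ≡ 3 [ZMOD 4] := by
      show (l₀ : ℤ) % 4 = 3 % 4
      omega
    exact k1.symm.trans k2
  have hr3 : (r : ℤ) ≡ 3 [ZMOD 4] := by
    show (r : ℤ) % 4 = 3 % 4
    omega
  obtain ⟨x₂, y₂, hr2⟩ := form_rep1 hq hq1 hd h3 hm hm2 hqm hr3
  have hc1 : IsCoprime (a * x₂ ^ 2 + 2 * b * x₂ * y₂ + c * y₂ ^ 2) ((8 * m : ℕ) : ℤ) := by
    obtain ⟨k, hk⟩ := hr2.symm.dvd
    have hk' : a * x₂ ^ 2 + 2 * b * x₂ * y₂ + c * y₂ ^ 2 = (r : ℤ) + ((8 * m : ℕ) : ℤ) * k := by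
      linarith
    rw [hk']
    exact (Nat.isCoprime_iff_coprime.2 hr).add_mul_left_left k
  obtain ⟨l, hlB, hl, hlm, x₃, y₃, hlv⟩ :=
    Pool.Agent.Work.MP_a5099b_nt.PrG.primes_even q hq hq1 m hm hm2 hqm a b c ha hd x₂ y₂ hc1
      (B + q + 5)
  obtain ⟨x', hx', hsup'⟩ := hf x₃ y₃ l hl.pos hlv
  refine ⟨l, hl, by omega, ?_, pair_jac P hl (by omega) (by omega) hx' hsup', x', hx', hsup'⟩
  exact Int.natCast_modEq_iff.1 (hlm.trans hr2)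

end Pool.Agent.SS.HC
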