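import Mathlib
import Pool.Agent.Work.MP_a5099b_nt.H.HDefs
import Pool.Agent.Work.MP_a5099b_nt.H.Cov
import Pool.Agent.Work.MP_a5099b_nt.H.Sand
import Pool.Agent.Work.MP_a5099b_nt.H.Eigen

/-!
# Module H1.TwoIdx (S-M): an isogeny of degree 2

`s = sq q`. `exists_eigen` (H/Eigen): an integer `e` with `(s - e) A ⊆ L`, `l ∣ e² + q`. `(u + v e)(u - v e) = u² - v² e² = 2 l - v² (q + e²)` is divisible by `l`, so `l ∣ u + v e` or `l ∣ u - v e`.
First case: `w = u + v s`: for `z ∈ A`: `w z = v (s - e) z + (u + v e) z ∈ L` (`l z ∈ L`: `sup_nsmul`). Second case: `w = u - v s`: `w z = -v (s - e) z + (u - v e) z`.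
`‖w‖² = u² + q v² = 2 l` (`sq_re`, `sq_im`), so `w ≠ 0` and `cov (w • A) = 2 l cov A = 2 cov L` (`cov_smul`, `cov_sup`), `sup_of_cov` (`w • A ≤ L`, `IsLat.smul`).
-/

set_option autoImplicit false

namespace Pool.Agent.SS.HC

open Polynomial
open Pool.Agent.Work.CM
open Pool.Agent.SS.HB
open scoped Pointwise

theorem two_idx {q l : ℕ} (hq : q.Prime) (hl : l.Prime) {L A : Submodule ℤ ℂ} (hs : HasSq q L)
    (hA : Sup l L A) (hsA : HasSq q A) {u v : ℤ} (h : u ^ 2 + q * v ^ 2 = 2 * l) :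
    ∃ w : ℂ, w ≠ 0 ∧ Sup 2 (w • A) L := by
  obtain ⟨e, he, hdvd⟩ := exists_eigen hl hs hA hsA
  have hlp : Prime (l : ℤ) := Nat.prime_iff_prime_int.1 hl
  have hl0 : (0 : ℝ) < (l : ℝ) := by exact_mod_cast hl.pos
  have hprod : (l : ℤ) ∣ (u + v * e) * (u - v * e) := by
    have h1 : (u + v * e) * (u - v * e) = (l : ℤ) * 2 - v ^ 2 * (e ^ 2 + q) := by
      linear_combination h
    rw [h1]
    exact dvd_sub (dvd_mul_right _ _) (hdvd.mul_left _)
  have hint : ∀ (k : ℤ) {z : ℂ}, z ∈ L → (k : ℂ) * z ∈ L := by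
    intro k z hz
    rw [← zsmul_eq_mul]
    exact L.smul_mem k hz
  have hlz : ∀ (k : ℤ), (l : ℤ) ∣ k → ∀ z ∈ A, (k : ℂ) * z ∈ L := by
    rintro _ ⟨c, rfl⟩ z hz
    have h1 := hint c (sup_nsmul hA hz)
    have h2 : (((l : ℤ) * c : ℤ) : ℂ) * z = (c : ℂ) * ((l : ℂ) * z) := by
      push_cast
      ring
    rw [h2]
    exact h1
  -- the general step
  have key : ∀ v' : ℤ, u ^ 2 + q * v' ^ 2 = 2 * l → (l : ℤ) ∣ u + v' * e →
      ∃ w : ℂ, w ≠ 0 ∧ Sup 2 (w • A) L := by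
    intro v' hv' hd
    set w : ℂ := (u : ℂ) + v' * sq q with hw
    have hre : w.re = u := by
      simp [hw, sq_re]
    have him : w.im = v' * Real.sqrt q := by
      simp [hw, sq_re, sq_im]
    have hnorm : ‖w‖ ^ 2 = 2 * l := by
      rw [← Complex.normSq_eq_norm_sq, Complex.normSq_apply, hre, him]
      have h1 : Real.sqrt q * Real.sqrt q = q := Real.mul_self_sqrt (Nat.cast_nonneg q)
      have h2 : ((u : ℝ)) ^ 2 + q * (v' : ℝ) ^ 2 = 2 * l := by exact_mod_cast hv'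
      calc (u : ℝ) * u + v' * Real.sqrt q * (v' * Real.sqrt q)
          = (u : ℝ) ^ 2 + (Real.sqrt q * Real.sqrt q) * (v' : ℝ) ^ 2 := by ring
        _ = 2 * l := by rw [h1, h2]
    have hw0 : w ≠ 0 := by
      intro h0
      rw [h0, norm_zero] at hnorm
      norm_num at hnorm
      exact hl.ne_zero hnorm
    refine ⟨w, hw0, sup_of_cov (hA.lat'.smul hw0) hA.lat ?_ ?_⟩
    · intro x hx
      rw [mem_smul' hw0] at hx
      have h1 : x = w * (w⁻¹ * x) := by field_simp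
      rw [h1]
      set z := w⁻¹ * x with hz
      have h2 : w * z = (v' : ℂ) * ((sq q - e) * z) + ((u + v' * e : ℤ) : ℂ) * z := by
        rw [hw]
        push_cast
        ring
      rw [h2]
      exact L.add_mem (hint v' (he z hx)) (hlz _ hd z hx)
    · rw [cov_smul hA.lat' hw0, hnorm, cov_sup hA]
      push_cast
      ring
  rcases hlp.dvd_or_dvd hprod with hd | hd
  · exact key v h hd
  · refine key (-v) (by rw [neg_sq]; exact h) ?_
    have : u + -v * e = u - v * e := by ring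
    rw [this]
    exact hd

end Pool.Agent.SS.HC
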